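import Mathlib

/-!
# MP_04fd10_lc : compact action realizations on Cantor space

A countable Borel equivalence relation (CBER) `E` on an uncountable standard Borel space whose set of
points lying in non-singleton classes is nonempty and countable always admits a compact action
realization, but never one whose underlying space is `2^ℕ` (or any perfect Polish space).
-/

open Set Topology

namespace Pool.Agent.Results.MP_04fd10_lc.CountableNontrivialPart

/-- `E` is a countable Borel equivalence relation on `X`. -/
structure IsCBER {X : Type} [MeasurableSpace X] (E : X → X → Prop) : Prop where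
  equiv : Equivalence E
  borel : MeasurableSet {p : X × X | E p.1 p.2}
  countable : ∀ x, {y | E x y}.Countable

/-- There are a countable group `Γ`, a continuous action of `Γ` on `K` and a Borel bijection
`f : X → K` carrying `E` to the orbit equivalence relation of the action. -/
def RealizedOn {X : Type} [MeasurableSpace X] (E : X → X → Prop)
    (K : Type) [TopologicalSpace K] : Prop :=
  ∃ (Γ : Type) (_ : Group Γ) (_ : Countable Γ) (_ : MulAction Γ K),
    (∀ g : Γ, Continuous fun k : K => g • k) ∧
    ∃ f : X → K, Function.Bijective f ∧ @Measurable X K _ (borel K) f ∧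
      ∀ x y, E x y ↔ ∃ g : Γ, f y = g • f x

/-- `E` admits a compact action realization: one on some compact metrizable space. -/
def AdmitsCompactActionRealization {X : Type} [MeasurableSpace X] (E : X → X → Prop) : Prop :=
  ∃ (K : Type) (_ : TopologicalSpace K),
    CompactSpace K ∧ TopologicalSpace.MetrizableSpace K ∧ RealizedOn E K

/-- The set of points whose `E`-class has more than `n` elements. -/
def bigClasses {X : Type} (E : X → X → Prop) (n : ℕ) : Set X :=
  {x | (n : ℕ∞) < {y | E x y}.encard}

/-! ### The obstruction on perfect Polish spaces -/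

/-- A countable set in a perfect Polish space has dense complement. -/
theorem dense_compl_of_countable {Y : Type} [TopologicalSpace Y] [PolishSpace Y] [PerfectSpace Y]
    {C : Set Y} (hC : C.Countable) : Dense Cᶜ := by
  have h := dense_biInter_of_isOpen (S := C) (f := fun c => ({c}ᶜ : Set Y))
    (fun c _ => isOpen_compl_singleton) hC (fun c _ => dense_compl_singleton c)
  refine h.mono ?_
  intro y hy hyC
  simp only [mem_iInter, mem_compl_iff, mem_singleton_iff] at hy
  exact hy y hyC rfl

theorem no_realization {X : Type} [MeasurableSpace X] (E : X → X → Prop) (n : ℕ)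
    (hne : (bigClasses E n).Nonempty) (hc : (bigClasses E n).Countable)
    (Y : Type) [TopologicalSpace Y] [PolishSpace Y] [PerfectSpace Y] : ¬ RealizedOn E Y := by
  rintro ⟨Γ, _, _, _, hcont, f, hf, -, hE⟩
  obtain ⟨x₀, hx₀⟩ := hne
  -- choose `n+1` distinct points in the class of `x₀`
  have h1 : ((n + 1 : ℕ) : ℕ∞) ≤ {y | E x₀ y}.encard := by
    have : (n : ℕ∞) < {y | E x₀ y}.encard := hx₀
    have h2 := Order.add_one_le_of_lt this
    simpa using h2
  obtain ⟨t, ht, htc⟩ := Set.exists_subset_encard_eq h1
  have htfin : t.Finite := Set.finite_of_encard_eq_coe htc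
  -- group elements taking `f x₀` to `f y`, `y ∈ t`
  have hg : ∀ y : t, ∃ g : Γ, f y = g • f x₀ := fun y => (hE x₀ y).1 (ht y.2)
  choose g hg using hg
  -- the open set where the `g y • k` are pairwise distinct
  let U : Set Y := {k | ∀ y z : t, y ≠ z → g y • k ≠ g z • k}
  have : Finite t := htfin
  have hU : IsOpen U := by
    have : U = ⋂ y : t, ⋂ z : t, ⋂ _ : y ≠ z, {k | g y • k ≠ g z • k} := by
      ext k; simp [U]
    rw [this]
    refine isOpen_iInter_of_finite fun y => isOpen_iInter_of_finite fun z =>
      isOpen_iInter_of_finite fun _ => ?_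
    exact isOpen_ne_fun (hcont _) (hcont _)
  have hx₀U : f x₀ ∈ U := by
    intro y z hyz h
    rw [← hg y, ← hg z] at h
    exact hyz (Subtype.ext (hf.1 h))
  have hUC : U ⊆ f '' (bigClasses E n) := by
    intro k hk
    obtain ⟨x, rfl⟩ := hf.2 k
    refine ⟨x, ?_, rfl⟩
    -- the map `y ↦ f⁻¹ (g y • f x)` is an injection of `t` into the class of `x`
    have hsurj : ∀ y : t, ∃ w : X, f w = g y • f x := fun y => hf.2 _
    choose w hw using hsurj
    have hinj : Function.Injective w := by
      intro y z hyz
      by_contra hne
      exact hk y z hne (by rw [← hw y, ← hw z, hyz])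
    have hsub : range w ⊆ {y | E x y} := by
      rintro _ ⟨y, rfl⟩
      exact (hE x (w y)).2 ⟨g y, hw y⟩
    have hcard : (range w).encard = t.encard := by
      rw [← image_univ, hinj.encard_image, encard_univ]
      rfl
    show (n : ℕ∞) < {y | E x y}.encard
    calc (n : ℕ∞) < ((n + 1 : ℕ) : ℕ∞) := by exact_mod_cast Nat.lt_succ_self n
      _ = t.encard := htc.symm
      _ = (range w).encard := hcard.symm
      _ ≤ _ := encard_le_encard hsub
  have hd := dense_compl_of_countable (hc.image f)
  obtain ⟨k, hkU, hkC⟩ := hd.inter_open_nonempty U hU ⟨_, hx₀U⟩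
  exact hkC (hUC hkU)

theorem perfectSpace_cantor : PerfectSpace (ℕ → Bool) := by
  rw [perfectSpace_iff_forall_not_isolated]
  intro x
  have h : Filter.Tendsto (fun n : ℕ => Function.update x n (!x n)) Filter.atTop (𝓝[≠] x) := by
    rw [tendsto_nhdsWithin_iff]
    constructor
    · rw [tendsto_pi_nhds]
      intro i
      apply tendsto_const_nhds.congr'
      filter_upwards [Filter.eventually_gt_atTop i] with n hn
      rw [Function.update_of_ne (by omega)]
    · refine Filter.Eventually.of_forall fun n => ?_
      intro h
      have := congrFun h n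
      simp at this
  exact h.neBot

theorem polishSpace_cantor : PolishSpace (ℕ → Bool) := by
  let _ := TopologicalSpace.metrizableSpaceMetric (ℕ → Bool)
  infer_instance

theorem not_countable_cantor : ¬ Countable (ℕ → Bool) := by
  intro h
  have := perfectSpace_cantor
  have := polishSpace_cantor
  have h1 := dense_compl_of_countable (Y := ℕ → Bool) (C := univ) (countable_univ_iff.2 h)
  rw [compl_univ] at h1
  exact h1.nonempty.ne_empty rfl

/-! ### The compact realization -/

/-- Interchanging two isolated points is continuous. -/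
theorem continuous_swap {K : Type} [TopologicalSpace K] [T1Space K] [DecidableEq K] {a b : K}
    (ha : IsOpen ({a} : Set K)) (hb : IsOpen ({b} : Set K)) :
    Continuous (Equiv.swap a b : K → K) := by
  rw [continuous_iff_continuousAt]
  intro x
  by_cases hxa : x = a
  · subst hxa
    have : 𝓝 x = pure x := (isOpen_singleton_iff_nhds_eq_pure x).1 ha
    rw [ContinuousAt, this]
    exact (Filter.tendsto_pure_pure _ _).mono_right (pure_le_nhds _)
  by_cases hxb : x = b
  · subst hxb
    have : 𝓝 x = pure x := (isOpen_singleton_iff_nhds_eq_pure x).1 hb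
    rw [ContinuousAt, this]
    exact (Filter.tendsto_pure_pure _ _).mono_right (pure_le_nhds _)
  · have h : (Equiv.swap a b : K → K) =ᶠ[𝓝 x] id := by
      have h1 : ({a}ᶜ ∩ {b}ᶜ : Set K) ∈ 𝓝 x :=
        (isOpen_compl_singleton.inter isOpen_compl_singleton).mem_nhds ⟨hxa, hxb⟩
      filter_upwards [h1] with y hy
      exact Equiv.swap_apply_of_ne_of_ne hy.1 hy.2
    exact (continuousAt_id).congr h.symm

/-- The sequences on `C` with at most one value `true`. -/
def Spikes (C : Type) : Set (C → Bool) := {x | ∀ c d, x c = true → x d = true → c = d}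

theorem isClosed_spikes (C : Type) : IsClosed (Spikes C) := by
  have : Spikes C = ⋂ c, ⋂ d, ⋂ _ : c ≠ d, {x : C → Bool | ¬ (x c = true ∧ x d = true)} := by
    ext x
    simp only [Spikes, mem_ofPred_eq, mem_iInter]
    constructor
    · intro h c d hcd h2
      exact hcd (h c d h2.1 h2.2)
    · intro h c d h1 h2
      by_contra hcd
      exact h c d hcd ⟨h1, h2⟩
  rw [this]
  refine isClosed_iInter fun c => isClosed_iInter fun d => isClosed_iInter fun _ => ?_
  have h1 : IsOpen {x : C → Bool | x c = true ∧ x d = true} := by
    have ha : IsOpen {x : C → Bool | x c = true} :=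
      (isOpen_discrete ({true} : Set Bool)).preimage
        (continuous_apply c : Continuous fun x : C → Bool => x c)
    have hb : IsOpen {x : C → Bool | x d = true} :=
      (isOpen_discrete ({true} : Set Bool)).preimage
        (continuous_apply d : Continuous fun x : C → Bool => x d)
    exact ha.inter hb
  exact isOpen_compl_iff.1 (by simpa [compl_ofPred] using h1)

open Classical in
/-- The spike at `c`. -/
noncomputable def spike {C : Type} (c : C) : Spikes C :=
  ⟨fun d => decide (d = c), by
    intro a b ha hb
    simp only [decide_eq_true_eq] at ha hb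
    rw [ha, hb]⟩

/-- The zero sequence. -/
def zeroSpike (C : Type) : Spikes C := ⟨fun _ => false, by intro a b ha; simp at ha⟩

theorem spike_injective {C : Type} : Function.Injective (spike : C → Spikes C) := by
  intro a b h
  have := congrFun (congrArg Subtype.val h) a
  simpa [spike] using this

theorem spike_ne_zero {C : Type} (c : C) : spike c ≠ zeroSpike C := by
  intro h
  have := congrFun (congrArg Subtype.val h) c
  simp [spike, zeroSpike] at this

theorem eq_spike_or_zero {C : Type} (x : Spikes C) : (∃ c, x = spike c) ∨ x = zeroSpike C := by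
  by_cases h : ∃ c, x.1 c = true
  · obtain ⟨c, hc⟩ := h
    left
    refine ⟨c, Subtype.ext (funext fun d => ?_)⟩
    by_cases hd : d = c
    · subst hd; simp [spike, hc]
    · have : x.1 d ≠ true := fun h => hd (x.2 d c h hc)
      simpa [spike, hd] using this
  · right
    refine Subtype.ext (funext fun d => ?_)
    have : x.1 d ≠ true := fun h' => h ⟨d, h'⟩
    simpa [zeroSpike] using this

theorem isOpen_spike {C : Type} (c : C) : IsOpen ({spike c} : Set (Spikes C)) := by
  have h : ({spike c} : Set (Spikes C)) = {x | x.1 c = true} := by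
    ext x
    simp only [mem_singleton_iff, mem_ofPred_eq]
    constructor
    · rintro rfl; simp [spike]
    · intro hx
      rcases eq_spike_or_zero x with ⟨d, rfl⟩ | rfl
      · have : c = d := by simpa [spike] using hx
        rw [this]
      · simp [zeroSpike] at hx
  rw [h]
  exact (isOpen_discrete ({true} : Set Bool)).preimage
    ((continuous_apply c).comp continuous_subtype_val :
      Continuous fun x : Spikes C => x.1 c)

section Action

variable {C : Type} (R : C → C → Prop)

/-- The space of the realization. -/
abbrev KSpace (C : Type) : Type := Spikes C ⊕ (ℕ → Bool)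

open Classical in
/-- The permutation interchanging the spikes at `c` and `d` if `c R d`. -/
noncomputable def gen (p : C × C) : Equiv.Perm (KSpace C) :=
  if R p.1 p.2 then Equiv.swap (Sum.inl (spike p.1)) (Sum.inl (spike p.2)) else 1

theorem gen_symm (p : C × C) : (gen R p)⁻¹ = gen R p := by
  unfold gen
  split_ifs with h
  · simp
  · simp

theorem isOpen_inl_spike (c : C) : IsOpen ({Sum.inl (spike c)} : Set (KSpace C)) := by
  have : ({Sum.inl (spike c)} : Set (KSpace C)) = Sum.inl '' {spike c} := by simp
  rw [this]
  exact isOpenMap_inl _ (isOpen_spike c)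

theorem gen_continuous (p : C × C) : Continuous (gen R p : KSpace C → KSpace C) := by
  classical
  unfold gen
  split_ifs with h
  · convert continuous_swap (isOpen_inl_spike p.1) (isOpen_inl_spike p.2)
  · exact continuous_id

/-- The homomorphism from the free group. -/
noncomputable def hom : FreeGroup (C × C) →* Equiv.Perm (KSpace C) := FreeGroup.lift (gen R)

theorem hom_continuous (g : FreeGroup (C × C)) : Continuous (hom R g : KSpace C → KSpace C) := by
  induction g using FreeGroup.induction_on with
  | C1 => rw [map_one]; exact continuous_id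
  | of p => simpa [hom] using gen_continuous R p
  | inv_of p _ =>
    have : hom R (FreeGroup.of p)⁻¹ = gen R p := by
      rw [map_inv]
      show (hom R (FreeGroup.of p))⁻¹ = _
      rw [hom, FreeGroup.lift_apply_of, gen_symm]
    rw [this]
    exact gen_continuous R p
  | mul a b ha hb =>
    rw [map_mul]
    exact ha.comp hb

/-- The relation on `KSpace C` generated by the action. -/
def Rel (x y : KSpace C) : Prop :=
  x = y ∨ ∃ c d, x = Sum.inl (spike c) ∧ y = Sum.inl (spike d) ∧ R c d

theorem rel_gen (hR : Equivalence R) (p : C × C) (x : KSpace C) : Rel R x (gen R p x) := by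
  classical
  unfold gen
  split_ifs with h
  · by_cases h1 : x = Sum.inl (spike p.1)
    · subst h1
      right
      exact ⟨p.1, p.2, rfl, Equiv.swap_apply_left _ _, h⟩
    by_cases h2 : x = Sum.inl (spike p.2)
    · subst h2
      right
      exact ⟨p.2, p.1, rfl, Equiv.swap_apply_right _ _, hR.symm h⟩
    · left
      exact (Equiv.swap_apply_of_ne_of_ne h1 h2).symm
  · left; rfl

theorem rel_trans (hR : Equivalence R) {x y z : KSpace C} (h1 : Rel R x y) (h2 : Rel R y z) :
    Rel R x z := by
  rcases h1 with rfl | ⟨c, d, rfl, rfl, hcd⟩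
  · exact h2
  · rcases h2 with rfl | ⟨c', d', hc', rfl, hcd'⟩
    · exact Or.inr ⟨c, d, rfl, rfl, hcd⟩
    · have : d = c' := spike_injective (Sum.inl_injective hc')
      subst this
      exact Or.inr ⟨c, d', rfl, rfl, hR.trans hcd hcd'⟩

theorem rel_hom (hR : Equivalence R) (g : FreeGroup (C × C)) :
    ∀ x : KSpace C, Rel R x (hom R g x) := by
  induction g using FreeGroup.induction_on with
  | C1 => intro x; left; simp
  | of p =>
    intro x
    have : hom R (FreeGroup.of p) = gen R p := by
      show hom R (FreeGroup.of p) = _
      rw [hom, FreeGroup.lift_apply_of]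
    rw [this]
    exact rel_gen R hR p x
  | inv_of p _ =>
    intro x
    have : hom R (FreeGroup.of p)⁻¹ = gen R p := by
      rw [map_inv]
      show (hom R (FreeGroup.of p))⁻¹ = _
      rw [hom, FreeGroup.lift_apply_of, gen_symm]
    rw [this]
    exact rel_gen R hR p x
  | mul a b ha hb =>
    intro x
    rw [map_mul]
    exact rel_trans R hR (hb x) (ha _)

end Action

theorem mem_bigClasses_one {X : Type} {E : X → X → Prop} (hE : Equivalence E) {x y : X}
    (hxy : E x y) (hne : x ≠ y) : x ∈ bigClasses E 1 ∧ y ∈ bigClasses E 1 := by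
  have key : ∀ z, z = x ∨ z = y → z ∈ bigClasses E 1 := by
    intro z hz
    show ((1 : ℕ) : ℕ∞) < _
    rw [Nat.cast_one, Set.one_lt_encard_iff]
    refine ⟨x, y, ?_, ?_, hne⟩
    · rcases hz with rfl | rfl
      · exact hE.refl _
      · exact hE.symm hxy
    · rcases hz with rfl | rfl
      · exact hxy
      · exact hE.refl _
  exact ⟨key x (Or.inl rfl), key y (Or.inr rfl)⟩

theorem compact_realization {X : Type} [MeasurableSpace X] [StandardBorelSpace X]
    (hX : ¬ Countable X) (E : X → X → Prop) (hE : IsCBER E)
    (hc : (bigClasses E 1).Countable) : AdmitsCompactActionRealization E := by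
  classical
  set M : Set X := bigClasses E 1 with hM
  have hMm : MeasurableSet M := hc.measurableSet
  have hMc : Countable M := hc
  let R : M → M → Prop := fun c d => E c d
  have hR : Equivalence R :=
    ⟨fun c => hE.equiv.refl _, fun h => hE.equiv.symm h, fun h h' => hE.equiv.trans h h'⟩
  have hcompS : CompactSpace (Spikes M) := isCompact_iff_compactSpace.1 (isClosed_spikes M).isCompact
  have hcompK : CompactSpace (KSpace M) := inferInstance
  have hmet : TopologicalSpace.MetrizableSpace (KSpace M) := inferInstance
  have hpol : PolishSpace (KSpace M) := by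
    let _ := TopologicalSpace.metrizableSpaceMetric (KSpace M)
    infer_instance
  let _ : MeasurableSpace (KSpace M) := borel (KSpace M)
  have : BorelSpace (KSpace M) := ⟨rfl⟩
  -- the complement of the isolated spikes
  let T : Set (KSpace M) := (range fun c : M => (Sum.inl (spike c) : KSpace M))ᶜ
  have hT : MeasurableSet T := (countable_range _).measurableSet.compl
  have : StandardBorelSpace T := hT.standardBorel
  have : StandardBorelSpace (Mᶜ : Set X) := hMm.compl.standardBorel
  have hTunc : ¬ Countable T := by
    intro h
    have : Countable (ℕ → Bool) := by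
      let j : (ℕ → Bool) → T := fun x => ⟨Sum.inr x, by rintro ⟨c, hc⟩; simp at hc⟩
      have hj : Function.Injective j := by
        intro a b hab
        have := congrArg Subtype.val hab
        exact Sum.inr_injective this
      exact hj.countable
    exact not_countable_cantor this
  have hMunc : ¬ Countable (Mᶜ : Set X) := by
    intro h
    apply hX
    have h2 : (M ∪ Mᶜ).Countable := hc.union h
    rw [union_compl_self] at h2
    exact countable_univ_iff.1 h2
  let e : (Mᶜ : Set X) ≃ᵐ T := PolishSpace.measurableEquivOfNotCountable hMunc hTunc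
  let f : X → KSpace M := fun x => if h : x ∈ M then Sum.inl (spike ⟨x, h⟩) else (e ⟨x, h⟩).1
  have hf1 : ∀ (x : X) (h : x ∈ M), f x = Sum.inl (spike ⟨x, h⟩) := fun x h => by simp [f, h]
  have hf2 : ∀ (x : X) (h : x ∉ M), f x = (e ⟨x, h⟩).1 := fun x h => by simp [f, h]
  refine ⟨KSpace M, inferInstance, hcompK, hmet, FreeGroup (M × M), inferInstance, inferInstance,
    MulAction.compHom (KSpace M) (hom R), fun g => hom_continuous R g, f, ⟨?_, ?_⟩, ?_, ?_⟩
  · -- injective
    intro x y hxy
    by_cases hx : x ∈ M <;> by_cases hy : y ∈ M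
    · rw [hf1 x hx, hf1 y hy] at hxy
      exact congrArg Subtype.val (spike_injective (Sum.inl_injective hxy))
    · rw [hf1 x hx, hf2 y hy] at hxy
      exact absurd ⟨_, hxy⟩ (e ⟨y, hy⟩).2
    · rw [hf2 x hx, hf1 y hy] at hxy
      exact absurd ⟨_, hxy.symm⟩ (e ⟨x, hx⟩).2
    · rw [hf2 x hx, hf2 y hy] at hxy
      exact congrArg Subtype.val (e.injective (Subtype.ext hxy))
  · -- surjective
    intro k
    by_cases hk : k ∈ T
    · obtain ⟨⟨x, hx⟩, hx2⟩ := e.surjective ⟨k, hk⟩
      refine ⟨x, ?_⟩
      rw [hf2 x hx, hx2]
    · have : k ∈ range fun c : M => (Sum.inl (spike c) : KSpace M) := by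
        by_contra h
        exact hk h
      obtain ⟨⟨x, hx⟩, rfl⟩ := this
      exact ⟨x, hf1 x hx⟩
  · -- measurable
    refine measurable_of_restrict_of_restrict_compl hMm (measurable_of_countable _) ?_
    have : (Mᶜ).domRestrict f = fun x => (e x).1 := by
      funext x
      exact hf2 x.1 x.2
    rw [this]
    exact measurable_subtype_coe.comp e.measurable
  · intro x y
    constructor
    · intro hxy
      by_cases hne : x = y
      · subst hne
        refine ⟨1, ?_⟩
        show f x = (hom R 1) (f x)
        rw [map_one]; rfl
      · obtain ⟨hx, hy⟩ := mem_bigClasses_one hE.equiv hxy hne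
        refine ⟨FreeGroup.of (⟨x, hx⟩, ⟨y, hy⟩), ?_⟩
        show f y = (hom R (FreeGroup.of (⟨x, hx⟩, ⟨y, hy⟩))) (f x)
        rw [hom, FreeGroup.lift_apply_of, hf1 x hx, hf1 y hy]
        have h3 : R ⟨x, hx⟩ ⟨y, hy⟩ := hxy
        unfold gen
        rw [if_pos h3]
        exact (Equiv.swap_apply_left _ _).symm
    · rintro ⟨g, hg⟩
      have h1 : Rel R (f x) (f y) := by
        rw [hg]
        exact rel_hom R hR g (f x)
      rcases h1 with h1 | ⟨c, d, hc', hd', hcd⟩
      · have : x = y := by
          by_cases hx : x ∈ M <;> by_cases hy : y ∈ M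
          · rw [hf1 x hx, hf1 y hy] at h1
            exact congrArg Subtype.val (spike_injective (Sum.inl_injective h1))
          · rw [hf1 x hx, hf2 y hy] at h1
            exact absurd ⟨_, h1⟩ (e ⟨y, hy⟩).2
          · rw [hf2 x hx, hf1 y hy] at h1
            exact absurd ⟨_, h1.symm⟩ (e ⟨x, hx⟩).2
          · rw [hf2 x hx, hf2 y hy] at h1
            exact congrArg Subtype.val (e.injective (Subtype.ext h1))
        rw [this]
        exact hE.equiv.refl _
      · have hx : x ∈ M := by
          by_contra hx
          rw [hf2 x hx] at hc'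
          exact (e ⟨x, hx⟩).2 ⟨c, hc'.symm⟩
        have hy : y ∈ M := by
          by_contra hy
          rw [hf2 y hy] at hd'
          exact (e ⟨y, hy⟩).2 ⟨d, hd'.symm⟩
        rw [hf1 x hx] at hc'
        rw [hf1 y hy] at hd'
        have e1 := spike_injective (Sum.inl_injective hc')
        have e2 := spike_injective (Sum.inl_injective hd')
        subst e1 e2
        exact hcd

/-- The relation whose only nontrivial class is `{a, b}`. -/
def pairRel {X : Type} (a b : X) (x y : X) : Prop := x = y ∨ (x ∈ ({a, b} : Set X) ∧ y ∈ ({a, b} : Set X))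

theorem isCBER_pairRel {X : Type} [MeasurableSpace X] [StandardBorelSpace X] (a b : X) :
    IsCBER (pairRel a b) := by
  refine ⟨⟨fun x => Or.inl rfl, ?_, ?_⟩, ?_, ?_⟩
  · rintro x y (rfl | ⟨h1, h2⟩)
    · exact Or.inl rfl
    · exact Or.inr ⟨h2, h1⟩
  · rintro x y z (rfl | ⟨h1, h2⟩) (rfl | ⟨h3, h4⟩)
    · exact Or.inl rfl
    · exact Or.inr ⟨h3, h4⟩
    · exact Or.inr ⟨h1, h2⟩
    · exact Or.inr ⟨h1, h4⟩
  · have h1 : MeasurableSet {p : X × X | p.1 = p.2} := measurableSet_eq_fun measurable_fst measurable_snd
    have h2 : MeasurableSet (({a, b} : Set X) ×ˢ ({a, b} : Set X)) :=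
      (((Set.toFinite _).measurableSet).prod ((Set.toFinite _).measurableSet))
    exact h1.union h2
  · intro x
    have : {y | pairRel a b x y} ⊆ {x} ∪ {a, b} := by
      rintro y (rfl | ⟨_, h⟩)
      · exact Or.inl rfl
      · exact Or.inr h
    exact ((Set.toFinite _).countable.union (Set.toFinite _).countable).mono this

theorem bigClasses_pairRel {X : Type} {a b : X} (hab : a ≠ b) :
    bigClasses (pairRel a b) 1 = {a, b} := by
  ext x
  constructor
  · intro hx
    have hx' : ((1 : ℕ) : ℕ∞) < {y | pairRel a b x y}.encard := hx
    rw [Nat.cast_one, Set.one_lt_encard_iff] at hx'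
    obtain ⟨u, v, hu, hv, huv⟩ := hx'
    rcases hu with hu | hu
    · rcases hv with hv | hv
      · exact absurd (hu.symm.trans hv) huv
      · exact hv.1
    · exact hu.1
  · intro hx
    show ((1 : ℕ) : ℕ∞) < _
    rw [Nat.cast_one, Set.one_lt_encard_iff]
    exact ⟨a, b, Or.inr ⟨hx, by simp⟩, Or.inr ⟨hx, by simp⟩, hab⟩

/-- **Main theorem.** -/
theorem result :
    -- the answer to Q1, for every uncountable standard Borel space `X`
    (∀ (X : Type) [MeasurableSpace X] [StandardBorelSpace X], ¬ Countable X →
      ∃ E : X → X → Prop, IsCBER E ∧ AdmitsCompactActionRealization E ∧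
        ¬ RealizedOn E (ℕ → Bool)) ∧
    -- more generally
    (∀ (X : Type) [MeasurableSpace X] [StandardBorelSpace X], ¬ Countable X →
      ∀ E : X → X → Prop, IsCBER E → (bigClasses E 1).Nonempty → (bigClasses E 1).Countable →
        AdmitsCompactActionRealization E ∧
        ∀ (Y : Type) [TopologicalSpace Y] [PolishSpace Y] [PerfectSpace Y], ¬ RealizedOn E Y) ∧
    -- the general obstruction
    (∀ (X : Type) [MeasurableSpace X] (E : X → X → Prop) (n : ℕ),
      (bigClasses E n).Nonempty → (bigClasses E n).Countable →
        ∀ (Y : Type) [TopologicalSpace Y] [PolishSpace Y] [PerfectSpace Y], ¬ RealizedOn E Y) := by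
  refine ⟨?_, ?_, ?_⟩
  · intro X _ _ hX
    have : Nontrivial X := by
      by_contra h
      rw [not_nontrivial_iff_subsingleton] at h
      exact hX inferInstance
    obtain ⟨a, b, hab⟩ := exists_pair_ne X
    have hbig := bigClasses_pairRel hab
    have hc : (bigClasses (pairRel a b) 1).Countable := by
      rw [hbig]; exact (Set.toFinite _).countable
    have hne : (bigClasses (pairRel a b) 1).Nonempty := by
      rw [hbig]; exact ⟨a, by simp⟩
    have := perfectSpace_cantor
    have := polishSpace_cantor
    exact ⟨pairRel a b, isCBER_pairRel a b,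
      compact_realization hX _ (isCBER_pairRel a b) hc,
      no_realization _ 1 hne hc (ℕ → Bool)⟩
  · intro X _ _ hX E hE hne hc
    exact ⟨compact_realization hX E hE hc, fun Y _ _ _ => no_realization E 1 hne hc Y⟩
  · intro X _ E n hne hc Y _ _ _
    exact no_realization E n hne hc Y

end Pool.Agent.Results.MP_04fd10_lc.CountableNontrivialPart
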